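import Pool.Agent.H37.ATR.Spec

/-!
# MON and EXI
-/

set_option autoImplicit false

open Filter
open scoped Topology

namespace Pool.Agent.H47.ATR

open Pool.Agent.H37.ATR

theorem pp_var (y x : ℝ) (hy : 0 < y) (hx : 0 ≤ x) :
    y * x / (1 + y * x) * (1 - y * x / (1 + y * x)) = y * x / (1 + y * x) ^ 2 := by
  have h : 0 < 1 + y * x := by positivity
  field_simp
  ring

theorem mon : MonSt := by
  intro r n x x' hx hxx'
  have hx' : 0 < x' := lt_of_lt_of_le hx hxx'
  have hy := yy_pos r n
  have key : ∀ y : ℝ, 0 < y → x * (1 + y * x') ≤ x' * (1 + y * x) := by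
    intro y _; nlinarith
  have hv : ∀ i, pp r n x i * (1 - pp r n x i) = yy r n i * x / (1 + yy r n i * x) ^ 2 :=
    fun i => pp_var _ _ (hy i) hx.le
  have hv' : ∀ i, pp r n x' i * (1 - pp r n x' i) = yy r n i * x' / (1 + yy r n i * x') ^ 2 :=
    fun i => pp_var _ _ (hy i) hx'.le
  have hd : ∀ i, pp r n x' i - pp r n x i
      = yy r n i * (x' - x) / ((1 + yy r n i * x') * (1 + yy r n i * x)) := by
    intro i
    have h1 : 0 < 1 + yy r n i * x := by have := hy i; positivity
    have h2 : 0 < 1 + yy r n i * x' := by have := hy i; positivity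
    unfold pp
    field_simp
    ring
  refine ⟨?_, ?_, ?_, ?_, ?_⟩
  · unfold L
    refine Finset.sum_le_sum fun i _ => ?_
    have := hd i
    have h0 : 0 ≤ yy r n i * (x' - x) / ((1 + yy r n i * x') * (1 + yy r n i * x)) := by
      have h1 := hy i
      have h2 : 0 ≤ x' - x := by linarith
      positivity
    linarith
  · unfold V
    rw [Finset.mul_sum]
    refine Finset.sum_le_sum fun i _ => ?_
    rw [hv, hv']
    have h1 := hy i
    have h2 : 0 < 1 + yy r n i * x := by positivity
    have h3 : 0 < 1 + yy r n i * x' := by positivity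
    rw [div_mul_div_comm, div_le_div_iff₀ (by positivity) (by positivity)]
    have h4 := key _ h1
    have h5 : (x * (1 + yy r n i * x')) ^ 2 ≤ (x' * (1 + yy r n i * x)) ^ 2 := by
      gcongr
    nlinarith [mul_le_mul_of_nonneg_left h5 h1.le]
  · unfold V
    rw [Finset.mul_sum]
    refine Finset.sum_le_sum fun i _ => ?_
    rw [hv, hv']
    have h1 := hy i
    have h2 : 0 < 1 + yy r n i * x := by positivity
    have h3 : 0 < 1 + yy r n i * x' := by positivity
    rw [div_mul_div_comm, div_le_div_iff₀ (by positivity) (by positivity)]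
    have h5 : (1 + yy r n i * x) ^ 2 ≤ (1 + yy r n i * x') ^ 2 := by
      gcongr
    have h6 : 0 ≤ yy r n i * x' * x := by positivity
    nlinarith [mul_le_mul_of_nonneg_left h5 h6]
  · unfold L V
    rw [← Finset.sum_sub_distrib, Finset.mul_sum]
    refine Finset.sum_le_sum fun i _ => ?_
    rw [hd, hv]
    have h1 := hy i
    have h2 : 0 < 1 + yy r n i * x := by positivity
    have h3 : 0 < 1 + yy r n i * x' := by positivity
    have e : (x' / x - 1) * (yy r n i * x / (1 + yy r n i * x) ^ 2)
        = yy r n i * (x' - x) / (1 + yy r n i * x) ^ 2 := by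
      field_simp
    rw [e, sq]
    have h4 : 0 ≤ yy r n i * (x' - x) := mul_nonneg h1.le (by linarith)
    gcongr
  · unfold L V
    rw [← Finset.sum_sub_distrib, Finset.mul_sum]
    refine Finset.sum_le_sum fun i _ => ?_
    rw [hd, hv']
    have h1 := hy i
    have h2 : 0 < 1 + yy r n i * x := by positivity
    have h3 : 0 < 1 + yy r n i * x' := by positivity
    have e : (x' / x - 1) * (yy r n i * x' / (1 + yy r n i * x') ^ 2)
        = yy r n i * (x' - x) * x' / (x * (1 + yy r n i * x') ^ 2) := by
      field_simp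
    have h4 : 0 ≤ yy r n i * (x' - x) := mul_nonneg h1.le (by linarith)
    rw [e, div_le_div_iff₀ (by positivity) (by positivity)]
    have h5 := mul_le_mul_of_nonneg_left (key _ h1)
      (mul_nonneg h4 h3.le)
    nlinarith [h5]

theorem exi : ExiSt := by
  intro r n k hk hkn
  have hy := yy_pos r n
  have hn : (0 : ℝ) < n := by exact_mod_cast (by omega : 0 < n)
  obtain ⟨M, hM0, hM⟩ : ∃ M : ℝ, 0 < M ∧ ∀ i, (n : ℝ) ≤ yy r n i * M := by
    refine ⟨∑ i, (n : ℝ) / yy r n i, ?_, ?_⟩
    · have : Nonempty (Fin n) := ⟨⟨0, by omega⟩⟩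
      exact Finset.sum_pos (fun i _ => div_pos hn (hy i)) Finset.univ_nonempty
    · intro i
      have h1 : (n : ℝ) / yy r n i ≤ ∑ i, (n : ℝ) / yy r n i :=
        Finset.single_le_sum (f := fun i => (n : ℝ) / yy r n i)
          (fun j _ => (div_pos hn (hy j)).le) (Finset.mem_univ i)
      have h2 := mul_le_mul_of_nonneg_left h1 (hy i).le
      rwa [mul_div_cancel₀ _ (hy i).ne'] at h2
  have hc : ContinuousOn (fun x => L r n x) (Set.Icc 0 M) := by
    unfold L pp
    refine continuousOn_finsetSum _ fun i _ => ?_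
    refine ContinuousOn.div (by fun_prop) (by fun_prop) ?_
    intro x hx
    have h1 := hy i
    have h2 := hx.1
    positivity
  have h0 : L r n 0 = 0 := by simp [L, pp]
  have h1 : (k : ℝ) ≤ L r n M := by
    have h2 : ∀ i, (n : ℝ) / (n + 1) ≤ pp r n M i := by
      intro i
      unfold pp
      have h3 := hM i
      have h4 : 0 < 1 + yy r n i * M := by linarith
      rw [div_le_div_iff₀ (by positivity) h4]
      nlinarith
    have h5 : ∑ _i : Fin n, (n : ℝ) / (n + 1) ≤ L r n M := Finset.sum_le_sum fun i _ => h2 i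
    rw [Finset.sum_const, Finset.card_univ, Fintype.card_fin, nsmul_eq_mul] at h5
    have h6 : (k : ℝ) ≤ n - 1 := by
      have : k + 1 ≤ n := hkn
      have : ((k + 1 : ℕ) : ℝ) ≤ n := by exact_mod_cast this
      push_cast at this
      linarith
    have h7 : (n : ℝ) - 1 ≤ n * (n / (n + 1)) := by
      rw [← mul_div_assoc, le_div_iff₀ (by positivity)]
      nlinarith
    linarith
  have hk0 : (0 : ℝ) < k := by exact_mod_cast (by omega : 0 < k)
  obtain ⟨x, hx, hxk⟩ := intermediate_value_Icc hM0.le hc
    (show (k : ℝ) ∈ Set.Icc (L r n 0) (L r n M) from ⟨by rw [h0]; exact hk0.le, h1⟩)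
  refine ⟨x, ?_, hxk⟩
  rcases hx.1.eq_or_lt with h | h
  · exfalso
    simp only at hxk
    rw [← h, h0] at hxk
    linarith
  · exact h

end Pool.Agent.H47.ATR
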